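import Mathlib

/-!
Project GA, task 16 (helper194): sums of `3^ω(n)/n`.
-/

set_option autoImplicit false

namespace Pool.Agent.W194.GA

open Finset

/-- `m^ω(n)/n` -/
noncomputable def hh (m : ℝ) (n : ℕ) : ℝ := m ^ n.primeFactors.card / n

lemma hh_nonneg {m : ℝ} (hm : 0 ≤ m) (n : ℕ) : 0 ≤ hh m n := by
  unfold hh
  positivity

lemma hh_mul (m : ℝ) {a b : ℕ} (h : Nat.Coprime a b) : hh m (a * b) = hh m a * hh m b := by
  unfold hh
  rw [h.primeFactors_mul, card_union_of_disjoint h.disjoint_primeFactors, pow_add]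
  push_cast
  rw [div_mul_div_comm]

lemma pow_omega (m : ℝ) {n : ℕ} (hn : Squarefree n) :
    (m + 1) ^ n.primeFactors.card = ∑ a ∈ n.divisors, m ^ a.primeFactors.card := by
  set f : ArithmeticFunction ℝ := ArithmeticFunction.prodPrimeFactors (fun _ => m) with hf
  have hmul : f.IsMultiplicative := ArithmeticFunction.IsMultiplicative.prodPrimeFactors _
  have h1 := hmul.prodPrimeFactors_one_add_of_squarefree hn
  have h2 : ∀ a : ℕ, a ≠ 0 → f a = m ^ a.primeFactors.card := by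
    intro a ha
    rw [hf, ArithmeticFunction.prodPrimeFactors_apply ha, prod_const]
  have h3 : ∏ p ∈ n.primeFactors, (1 + f p) = (m + 1) ^ n.primeFactors.card := by
    rw [← prod_const]
    refine prod_congr rfl (fun p hp => ?_)
    have hp' := Nat.prime_of_mem_primeFactors hp
    rw [h2 p hp'.ne_zero, hp'.primeFactors, card_singleton, pow_one, add_comm]
  rw [← h3, h1]
  refine sum_congr rfl (fun a ha => ?_)
  rw [h2 a (Nat.pos_of_mem_divisors ha).ne']

/-- harmonic sum -/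
noncomputable def Hs (D : ℕ) : ℝ := ∑ n ∈ Icc 1 D, 1 / (n : ℝ)

lemma Hs_nonneg (D : ℕ) : 0 ≤ Hs D := sum_nonneg (fun _ _ => by positivity)

lemma Hs_le (D : ℕ) : Hs D ≤ 1 + Real.log D := by
  have h := harmonic_le_one_add_log D
  rw [harmonic_eq_sum_Icc] at h
  push_cast at h
  refine le_trans (le_of_eq ?_) h
  unfold Hs
  exact Finset.sum_congr rfl (fun i _ => by rw [one_div])

lemma sum_hh (D : ℕ) : ∀ m : ℕ, ∑ n ∈ (Icc 1 D).filter Squarefree, hh m n ≤ Hs D ^ m := by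
  classical
  intro m
  induction m with
  | zero =>
    rw [pow_zero]
    have h : ∀ n ∈ (Icc 1 D).filter Squarefree, hh ((0 : ℕ) : ℝ) n = if n = 1 then 1 else 0 := by
      intro n hn
      rw [mem_filter, mem_Icc] at hn
      split_ifs with h1
      · subst h1; simp [hh]
      · unfold hh
        have h2 : n.primeFactors.card ≠ 0 := by
          rw [ne_eq, card_eq_zero, Nat.primeFactors_eq_empty]
          omega
        rw [Nat.cast_zero, zero_pow h2, zero_div]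
    rw [sum_congr rfl h, sum_ite_eq']
    split_ifs <;> norm_num
  | succ m ih =>
    have hH := Hs_nonneg D
    have h1 : ∑ n ∈ (Icc 1 D).filter Squarefree, hh ((m + 1 : ℕ) : ℝ) n =
        ∑ x ∈ ((Icc 1 D).filter Squarefree).sigma (fun n => n.divisors),
          hh m x.2 * (1 / ((x.1 / x.2 : ℕ) : ℝ)) := by
      rw [sum_sigma]
      refine sum_congr rfl (fun n hn => ?_)
      rw [mem_filter] at hn
      unfold hh
      push_cast
      rw [pow_omega (m : ℝ) hn.2, sum_div]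
      refine sum_congr rfl (fun a ha => ?_)
      have ha0 : (a : ℝ) ≠ 0 := by exact_mod_cast (Nat.pos_of_mem_divisors ha).ne'
      have hn0 : (n : ℝ) ≠ 0 := by exact_mod_cast hn.2.ne_zero
      rw [Nat.cast_div (Nat.dvd_of_mem_divisors ha) ha0]
      field_simp
    have h2 : ∑ x ∈ ((Icc 1 D).filter Squarefree).sigma (fun n => n.divisors),
          hh m x.2 * (1 / ((x.1 / x.2 : ℕ) : ℝ)) ≤
        ∑ y ∈ ((Icc 1 D).filter Squarefree) ×ˢ (Icc 1 D), hh m y.1 * (1 / (y.2 : ℝ)) := by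
      let f : (_ : ℕ) × ℕ → ℕ × ℕ := fun x => (x.2, x.1 / x.2)
      have hinj : Set.InjOn f (↑(((Icc 1 D).filter Squarefree).sigma (fun n => n.divisors)) :
          Set ((_ : ℕ) × ℕ)) := by
        rintro ⟨n, a⟩ hx ⟨n', a'⟩ hx' hf
        simp only [f, Prod.mk.injEq] at hf
        rw [mem_coe, mem_sigma] at hx hx'
        obtain ⟨h3, h4⟩ := hf
        have e1 : n = a * (n / a) := (Nat.mul_div_cancel' (Nat.dvd_of_mem_divisors hx.2)).symm
        have e2 : n' = a' * (n' / a') := (Nat.mul_div_cancel' (Nat.dvd_of_mem_divisors hx'.2)).symm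
        have e3 : n = n' := by rw [e1, e2, h4, h3]
        subst e3
        subst h3
        rfl
      have e0 : ∑ x ∈ ((Icc 1 D).filter Squarefree).sigma (fun n => n.divisors),
          hh m x.2 * (1 / ((x.1 / x.2 : ℕ) : ℝ)) =
          ∑ y ∈ (((Icc 1 D).filter Squarefree).sigma (fun n => n.divisors)).image f,
            hh m y.1 * (1 / (y.2 : ℝ)) := by
        rw [sum_image hinj]
      rw [e0]
      refine sum_le_sum_of_subset_of_nonneg ?_ (fun y _ _ =>
        mul_nonneg (hh_nonneg (Nat.cast_nonneg m) _) (by positivity))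
      intro y hy
      rw [mem_image] at hy
      obtain ⟨⟨n, a⟩, hx, rfl⟩ := hy
      rw [mem_sigma, mem_filter, mem_Icc] at hx
      obtain ⟨⟨⟨h3, h4⟩, h5⟩, h6⟩ := hx
      have ha := Nat.dvd_of_mem_divisors h6
      have ha1 := Nat.pos_of_mem_divisors h6
      simp only at h3 h4 h5 ha ha1
      have han := Nat.le_of_dvd (by omega) ha
      simp only [f, mem_product, mem_filter, mem_Icc]
      exact ⟨⟨⟨ha1, han.trans h4⟩, h5.squarefree_of_dvd ha⟩, Nat.div_pos han ha1,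
        (Nat.div_le_self _ _).trans h4⟩
    rw [h1]
    refine h2.trans ?_
    rw [sum_product]
    have h3 : ∑ x ∈ (Icc 1 D).filter Squarefree, ∑ y ∈ Icc 1 D, hh m x * (1 / (y : ℝ)) =
        (∑ x ∈ (Icc 1 D).filter Squarefree, hh m x) * Hs D := by
      rw [sum_mul]
      refine sum_congr rfl (fun x _ => ?_)
      rw [← mul_sum]
      rfl
    rw [h3, pow_succ]
    exact mul_le_mul_of_nonneg_right ih hH

lemma lcm_squarefree {d e : ℕ} (hd : Squarefree d) (he : Squarefree e) :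
    Squarefree (Nat.lcm d e) := by
  rw [Nat.squarefree_iff_prime_squarefree]
  intro p hp hdvd
  have hl : Nat.lcm d e ≠ 0 := Nat.lcm_ne_zero hd.ne_zero he.ne_zero
  have h2 : 2 ≤ (Nat.lcm d e).factorization p := by
    rw [← sq] at hdvd
    exact (hp.pow_dvd_iff_le_factorization hl).1 hdvd
  rw [Nat.factorization_lcm hd.ne_zero he.ne_zero, Finsupp.sup_apply] at h2
  have h3 := hd.natFactorization_le_one p
  have h4 := he.natFactorization_le_one p
  have := max_le h3 h4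
  omega

lemma lcm_eq (a b : ℕ) (ha : 0 < a) :
    Nat.lcm a b = Nat.gcd a b * ((a / Nat.gcd a b) * (b / Nat.gcd a b)) := by
  have hg : 0 < Nat.gcd a b := Nat.gcd_pos_of_pos_left b ha
  have h1 : Nat.gcd a b * Nat.lcm a b = a * b := Nat.gcd_mul_lcm a b
  have h2 := Nat.mul_div_cancel' (Nat.gcd_dvd_left a b)
  have h3 := Nat.mul_div_cancel' (Nat.gcd_dvd_right a b)
  apply Nat.eq_of_mul_eq_mul_left hg
  rw [h1]
  generalize a / Nat.gcd a b = a' at h2 ⊢
  generalize b / Nat.gcd a b = b' at h3 ⊢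
  calc a * b = (Nat.gcd a b * a') * (Nat.gcd a b * b') := by rw [h2, h3]
    _ = _ := by ring

/-- `∑ 3^ω([d,e])/[d,e] ≤ (1 + log D)^9` over squarefree `d, e ≤ D` -/
lemma sum_lcm_hh (D : ℕ) :
    ∑ x ∈ (Icc 1 D ×ˢ Icc 1 D).filter (fun x => Squarefree x.1 ∧ Squarefree x.2),
      hh 3 (Nat.lcm x.1 x.2) ≤ (1 + Real.log D) ^ 9 := by
  classical
  set T : Finset ℕ := (Icc 1 D).filter Squarefree with hT
  let f : ℕ × ℕ → ℕ × (ℕ × ℕ) := fun x => (Nat.gcd x.1 x.2, (x.1 / Nat.gcd x.1 x.2, x.2 / Nat.gcd x.1 x.2))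
  set S := (Icc 1 D ×ˢ Icc 1 D).filter (fun x => Squarefree x.1 ∧ Squarefree x.2) with hS
  have hinj : Set.InjOn f (↑S : Set (ℕ × ℕ)) := by
    rintro ⟨a, b⟩ _ ⟨c, d⟩ _ hfe
    simp only [f, Prod.mk.injEq] at hfe
    obtain ⟨h1, h2, h3⟩ := hfe
    have ha : a = Nat.gcd a b * (a / Nat.gcd a b) := (Nat.mul_div_cancel' (Nat.gcd_dvd_left a b)).symm
    have hb : b = Nat.gcd a b * (b / Nat.gcd a b) := (Nat.mul_div_cancel' (Nat.gcd_dvd_right a b)).symm
    have hc : c = Nat.gcd c d * (c / Nat.gcd c d) := (Nat.mul_div_cancel' (Nat.gcd_dvd_left c d)).symm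
    have hd : d = Nat.gcd c d * (d / Nat.gcd c d) := (Nat.mul_div_cancel' (Nat.gcd_dvd_right c d)).symm
    have e1 : a = c := by rw [ha, hc, h1, ← h1, h2, h1]
    have e2 : b = d := by rw [hb, hd, h1, ← h1, h3, h1]
    rw [e1, e2]
  have h3 : ∀ x ∈ S, hh 3 (Nat.lcm x.1 x.2) =
      (fun y : ℕ × (ℕ × ℕ) => hh 3 y.1 * (hh 3 y.2.1 * hh 3 y.2.2)) (f x) := by
    rintro ⟨a, b⟩ hx
    rw [hS, mem_filter, mem_product, mem_Icc, mem_Icc] at hx
    obtain ⟨⟨⟨ha1, _⟩, _, _⟩, hsa, hsb⟩ := hx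
    simp only at ha1 hsa hsb
    have hsq := lcm_squarefree hsa hsb
    rw [lcm_eq a b (by omega)] at hsq ⊢
    rw [Nat.squarefree_mul_iff] at hsq
    obtain ⟨hc1, _, hsq2⟩ := hsq
    rw [Nat.squarefree_mul_iff] at hsq2
    simp only [f]
    rw [hh_mul 3 hc1, hh_mul 3 hsq2.1]
  have himg : S.image f ⊆ T ×ˢ (T ×ˢ T) := by
    intro y hy
    rw [mem_image] at hy
    obtain ⟨⟨a, b⟩, hx, rfl⟩ := hy
    rw [hS, mem_filter, mem_product, mem_Icc, mem_Icc] at hx
    obtain ⟨⟨⟨ha1, ha2⟩, hb1, hb2⟩, hsa, hsb⟩ := hx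
    simp only at ha1 ha2 hb1 hb2 hsa hsb
    have hg : 0 < Nat.gcd a b := Nat.gcd_pos_of_pos_left b (by omega)
    have hga : Nat.gcd a b ≤ a := Nat.le_of_dvd (by omega) (Nat.gcd_dvd_left a b)
    have hgb : Nat.gcd a b ≤ b := Nat.le_of_dvd (by omega) (Nat.gcd_dvd_right a b)
    simp only [f, hT, mem_product, mem_filter, mem_Icc]
    refine ⟨⟨⟨hg, hga.trans ha2⟩, hsa.squarefree_of_dvd (Nat.gcd_dvd_left a b)⟩,
      ⟨⟨Nat.div_pos hga hg, (Nat.div_le_self _ _).trans ha2⟩,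
        hsa.squarefree_of_dvd (Nat.div_dvd_of_dvd (Nat.gcd_dvd_left a b))⟩,
      ⟨⟨Nat.div_pos hgb hg, (Nat.div_le_self _ _).trans hb2⟩,
        hsb.squarefree_of_dvd (Nat.div_dvd_of_dvd (Nat.gcd_dvd_right a b))⟩⟩
  have h30 : (0 : ℝ) ≤ 3 := by norm_num
  calc ∑ x ∈ S, hh 3 (Nat.lcm x.1 x.2)
      = ∑ y ∈ S.image f, hh 3 y.1 * (hh 3 y.2.1 * hh 3 y.2.2) := by
        rw [sum_congr rfl h3, sum_image hinj]
    _ ≤ ∑ y ∈ T ×ˢ (T ×ˢ T), hh 3 y.1 * (hh 3 y.2.1 * hh 3 y.2.2) :=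
        sum_le_sum_of_subset_of_nonneg himg (fun y _ _ => mul_nonneg (hh_nonneg h30 _)
          (mul_nonneg (hh_nonneg h30 _) (hh_nonneg h30 _)))
    _ = (∑ n ∈ T, hh 3 n) ^ 3 := by
        rw [sum_product]
        have : ∀ x ∈ T, ∑ y ∈ T ×ˢ T, hh 3 x * (hh 3 y.1 * hh 3 y.2) =
            hh 3 x * (∑ n ∈ T, hh 3 n) ^ 2 := by
          intro x _
          rw [← mul_sum, sum_product, sq, sum_mul_sum]
        rw [sum_congr rfl this, ← sum_mul]
        ring
    _ ≤ (Hs D ^ 3) ^ 3 := by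
        refine pow_le_pow_left₀ (sum_nonneg (fun n _ => hh_nonneg h30 n)) ?_ 3
        have := sum_hh D 3
        push_cast at this
        exact this
    _ ≤ ((1 + Real.log D) ^ 3) ^ 3 :=
        pow_le_pow_left₀ (pow_nonneg (Hs_nonneg D) 3)
          (pow_le_pow_left₀ (Hs_nonneg D) (Hs_le D) 3) 3
    _ = (1 + Real.log D) ^ 9 := by ring

end Pool.Agent.W194.GA
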