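import Pool.Agent.W194.GA.A

/-!
Project GA, task 16 (helper194): elements with norm divisible by many split primes.
-/

set_option autoImplicit false

namespace Pool.Agent.W194.GA

open Finset Filter
open Pool.Agent.H376R2.MR Pool.Agent.W78.GA

variable {t c : ℤ}

/-! ### Congruences -/

lemma lat_congr {d : ℕ} {r r' : ℤ} (h : (d : ℤ) ∣ r' - r) (z : Qd t c) :
    lat d r' z ↔ lat d r z := by
  unfold lat
  have e : z.re + r' * z.im = (z.re + r * z.im) + (r' - r) * z.im := by ring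
  rw [e]
  exact (Int.dvd_add_left (h.mul_right _))

lemma isCoprime_cast {a b : ℕ} (h : Nat.Coprime a b) : IsCoprime (a : ℤ) (b : ℤ) :=
  Nat.isCoprime_iff_coprime.2 h

lemma lat_mul_iff {d p : ℕ} (h : Nat.Coprime d p) (r : ℤ) (z : Qd t c) :
    lat (d * p) r z ↔ lat d r z ∧ lat p r z := by
  unfold lat
  push_cast
  constructor
  · intro h1
    exact ⟨(dvd_mul_right _ _).trans h1, (dvd_mul_left _ _).trans h1⟩
  · rintro ⟨h1, h2⟩
    exact (isCoprime_cast h).mul_dvd h1 h2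

lemma crt {d p : ℕ} (h : Nat.Coprime d p) (r s : ℤ) :
    ∃ r' : ℤ, (d : ℤ) ∣ r' - r ∧ (p : ℤ) ∣ r' - s := by
  obtain ⟨a, b, hab⟩ := isCoprime_cast h
  refine ⟨r + a * d * (s - r), ⟨a * (s - r), by ring⟩, ⟨(r - s) * b, ?_⟩⟩
  have : a * (d : ℤ) = 1 - b * p := by linarith
  rw [this]
  ring

lemma root_congr {d : ℕ} {r r' : ℤ} (h : (d : ℤ) ∣ r' - r) (hr : (d : ℤ) ∣ r ^ 2 - t * r + c) :
    (d : ℤ) ∣ r' ^ 2 - t * r' + c := by
  have e : r' ^ 2 - t * r' + c = (r ^ 2 - t * r + c) + (r' - r) * (r' + r - t) := by ring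
  rw [e]
  exact dvd_add hr (h.mul_right _)

lemma root_mul {d p : ℕ} (h : Nat.Coprime d p) {r : ℤ} (h1 : (d : ℤ) ∣ r ^ 2 - t * r + c)
    (h2 : (p : ℤ) ∣ r ^ 2 - t * r + c) : ((d * p : ℕ) : ℤ) ∣ r ^ 2 - t * r + c := by
  push_cast
  exact (isCoprime_cast h).mul_dvd h1 h2

lemma prime_dvd_nm (hD : t ^ 2 < 4 * c) {p : ℕ} (hp : p.Prime) {s : ℤ}
    (hs : (p : ℤ) ∣ s ^ 2 - t * s + c) (z : Qd t c) :
    p ∣ nm z ↔ lat p s z ∨ lat p (t - s) z := by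
  have e : z.re ^ 2 + t * z.re * z.im + c * z.im ^ 2 =
      (z.re + s * z.im) * (z.re + (t - s) * z.im) + (s ^ 2 - t * s + c) * z.im ^ 2 := by ring
  have h1 : (p : ℤ) ∣ (nm z : ℤ) ↔ (p : ℤ) ∣ (z.re + s * z.im) * (z.re + (t - s) * z.im) := by
    rw [nm_cast hD, e]
    exact Int.dvd_add_left (hs.mul_right _)
  rw [← Int.natCast_dvd_natCast, h1]
  unfold lat
  exact (Nat.prime_iff_prime_int.1 hp).dvd_mul

lemma both_iff {p : ℕ} (hp : p.Prime) (hpD : ¬ (p : ℤ) ∣ t ^ 2 - 4 * c) {s : ℤ}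
    (hs : (p : ℤ) ∣ s ^ 2 - t * s + c) (z : Qd t c) :
    ((p : Qd t c) ∣ z) ↔ lat p s z ∧ lat p (t - s) z := by
  rw [natCast_dvd]
  unfold lat
  have hp' := Nat.prime_iff_prime_int.1 hp
  have h0 : ¬ (p : ℤ) ∣ t - 2 * s := by
    intro h
    apply hpD
    have e : t ^ 2 - 4 * c = (t - 2 * s) * (t - 2 * s) - 4 * (s ^ 2 - t * s + c) := by ring
    rw [e]
    exact dvd_sub (h.mul_right _) (hs.mul_left _)
  constructor
  · rintro ⟨h1, h2⟩
    exact ⟨dvd_add h1 (h2.mul_left _), dvd_add h1 (h2.mul_left _)⟩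
  · rintro ⟨h1, h2⟩
    have h3 : (p : ℤ) ∣ (t - 2 * s) * z.im := by
      have e : (t - 2 * s) * z.im = (z.re + (t - s) * z.im) - (z.re + s * z.im) := by ring
      rw [e]
      exact dvd_sub h2 h1
    have h4 : (p : ℤ) ∣ z.im := (hp'.dvd_mul.1 h3).resolve_left h0
    refine ⟨?_, h4⟩
    have e : z.re = (z.re + s * z.im) - s * z.im := by ring
    rw [e]
    exact dvd_sub h1 (h4.mul_left _)

lemma natCast_mul_dvd {n p : ℕ} (h : Nat.Coprime n p) (z : Qd t c) :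
    (((n * p : ℕ) : Qd t c) ∣ z) ↔ ((n : Qd t c) ∣ z) ∧ ((p : Qd t c) ∣ z) := by
  rw [natCast_dvd, natCast_dvd, natCast_dvd]
  push_cast
  have hc := isCoprime_cast h
  constructor
  · rintro ⟨h1, h2⟩
    exact ⟨⟨(dvd_mul_right _ _).trans h1, (dvd_mul_right _ _).trans h2⟩,
      ⟨(dvd_mul_left _ _).trans h1, (dvd_mul_left _ _).trans h2⟩⟩
  · rintro ⟨⟨h1, h2⟩, h3, h4⟩
    exact ⟨hc.mul_dvd h1 h3, hc.mul_dvd h2 h4⟩

/-! ### The sets -/

open scoped Classical in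
/-- elements of the annulus in an ideal, divisible by `n`, with norm divisible by the primes of
`s` -/
noncomputable def SS (t c : ℤ) (A B : ℝ) (s : Finset ℕ) (d : ℕ) (r : ℤ) (n : ℕ) :
    Finset (Qd t c) :=
  (ann t c A B).filter (fun z => (∀ p ∈ s, p ∣ nm z) ∧ lat d r z ∧ (n : Qd t c) ∣ z)

lemma ite_split (f : ℝ) {P0 P1 P2 P3 : Prop} [Decidable P0] [Decidable P1] [Decidable P2]
    [Decidable P3] {a b q : Prop} (h0 : P0 ↔ (a ∨ b) ∧ q) (h1 : P1 ↔ a ∧ q) (h2 : P2 ↔ b ∧ q)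
    (h3 : P3 ↔ (a ∧ b) ∧ q) :
    (if P0 then f else 0) = (if P1 then f else 0) + (if P2 then f else 0) -
      (if P3 then f else 0) := by
  by_cases ha : a
  · by_cases hb : b
    · by_cases hq : q
      · rw [if_pos (h0.2 ⟨Or.inl ha, hq⟩), if_pos (h1.2 ⟨ha, hq⟩), if_pos (h2.2 ⟨hb, hq⟩),
          if_pos (h3.2 ⟨⟨ha, hb⟩, hq⟩)]
        ring
      · rw [if_neg (fun h => hq (h0.1 h).2), if_neg (fun h => hq (h1.1 h).2),
          if_neg (fun h => hq (h2.1 h).2), if_neg (fun h => hq (h3.1 h).2)]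
        ring
    · rw [if_neg (fun h => hb (h2.1 h).1), if_neg (fun h => hb (h3.1 h).1.2)]
      by_cases hq : q
      · rw [if_pos (h0.2 ⟨Or.inl ha, hq⟩), if_pos (h1.2 ⟨ha, hq⟩)]
        ring
      · rw [if_neg (fun h => hq (h0.1 h).2), if_neg (fun h => hq (h1.1 h).2)]
        ring
  · rw [if_neg (fun h => ha (h1.1 h).1), if_neg (fun h => ha (h3.1 h).1.1)]
    by_cases hb : b
    · by_cases hq : q
      · rw [if_pos (h0.2 ⟨Or.inr hb, hq⟩), if_pos (h2.2 ⟨hb, hq⟩)]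
        ring
      · rw [if_neg (fun h => hq (h0.1 h).2), if_neg (fun h => hq (h2.1 h).2)]
        ring
    · rw [if_neg (fun h => (h0.1 h).1.elim ha hb), if_neg (fun h => hb (h2.1 h).1)]
      ring

/-- the splitting -/
lemma SS_insert (hD : t ^ 2 < 4 * c) (F : Qd t c → ℝ) (A B : ℝ) (s : Finset ℕ) (d : ℕ) (r : ℤ)
    (n p : ℕ) (hp : p.Prime) (hpD : ¬ (p : ℤ) ∣ t ^ 2 - 4 * c) {x : ℤ}
    (hx : (p : ℤ) ∣ x ^ 2 - t * x + c) (hd : Nat.Coprime d p) (hn : Nat.Coprime n p) {r₁ r₂ : ℤ}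
    (h1 : (d : ℤ) ∣ r₁ - r) (h1' : (p : ℤ) ∣ r₁ - x) (h2 : (d : ℤ) ∣ r₂ - r)
    (h2' : (p : ℤ) ∣ r₂ - (t - x)) :
    ∑ z ∈ SS t c A B (insert p s) d r n, F z =
      ∑ z ∈ SS t c A B s (d * p) r₁ n, F z + ∑ z ∈ SS t c A B s (d * p) r₂ n, F z -
        ∑ z ∈ SS t c A B s d r (n * p), F z := by
  classical
  unfold SS
  rw [sum_filter, sum_filter, sum_filter, sum_filter, ← sum_add_distrib, ← sum_sub_distrib]
  refine sum_congr rfl (fun z _ => ?_)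
  have e1 : lat (d * p) r₁ z ↔ lat d r z ∧ lat p x z := by
    rw [lat_mul_iff hd, lat_congr h1, lat_congr h1']
  have e2 : lat (d * p) r₂ z ↔ lat d r z ∧ lat p (t - x) z := by
    rw [lat_mul_iff hd, lat_congr h2, lat_congr h2']
  have e3 := natCast_mul_dvd hn z
  have e4 := both_iff hp hpD hx z
  have e5 := prime_dvd_nm hD hp hx z
  have e6 : (∀ q ∈ insert p s, q ∣ nm z) ↔ (lat p x z ∨ lat p (t - x) z) ∧ ∀ q ∈ s, q ∣ nm z := by
    rw [forall_mem_insert, e5]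
  refine ite_split (F z) (a := lat p x z) (b := lat p (t - x) z)
    (q := (∀ q ∈ s, q ∣ nm z) ∧ lat d r z ∧ (n : Qd t c) ∣ z) ?_ ?_ ?_ ?_
  · rw [e6]
    exact ⟨fun h => ⟨h.1.1, h.1.2, h.2⟩, fun h => ⟨⟨h.1, h.2.1⟩, h.2.2⟩⟩
  · rw [e1]
    exact ⟨fun h => ⟨h.2.1.2, h.1, h.2.1.1, h.2.2⟩, fun h => ⟨h.2.1, ⟨h.2.2.1, h.1⟩, h.2.2.2⟩⟩
  · rw [e2]
    exact ⟨fun h => ⟨h.2.1.2, h.1, h.2.1.1, h.2.2⟩, fun h => ⟨h.2.1, ⟨h.2.2.1, h.1⟩, h.2.2.2⟩⟩
  · rw [e3, e4]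
    exact ⟨fun h => ⟨h.2.2.2, h.1, h.2.1, h.2.2.1⟩, fun h => ⟨h.2.1, h.2.2.1, h.2.2.2, h.1⟩⟩

/-- the induction over the primes -/
theorem SS_ind (hD : t ^ 2 < 4 * c) (F : Qd t c → ℝ) (A B ρ Err Q : ℝ) (hErr : 0 ≤ Err)
    (hbase : ∀ (d : ℕ) (r : ℤ) (n : ℕ), 1 ≤ d → 1 ≤ n → Nat.Coprime d n →
      (d : ℤ) ∣ r ^ 2 - t * r + c → (d : ℝ) * (n : ℝ) ^ 2 ≤ Q →
      |∑ z ∈ SS t c A B ∅ d r n, F z - ρ / (d * (n : ℝ) ^ 2)| ≤ Err / (d * (n : ℝ) ^ 2)) :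
    ∀ s : Finset ℕ, (∀ p ∈ s, Sp t c p) → ∀ (d : ℕ) (r : ℤ) (n : ℕ), 1 ≤ d → 1 ≤ n →
      Nat.Coprime d n → (d : ℤ) ∣ r ^ 2 - t * r + c → (∀ p ∈ s, ¬ p ∣ d ∧ ¬ p ∣ n) →
      (d : ℝ) * (n : ℝ) ^ 2 * ∏ p ∈ s, (p : ℝ) ^ 2 ≤ Q →
      |∑ z ∈ SS t c A B s d r n, F z -
        ρ / (d * (n : ℝ) ^ 2) * ∏ p ∈ s, (2 * (p : ℝ) - 1) / (p : ℝ) ^ 2| ≤
        Err / (d * (n : ℝ) ^ 2) * ∏ p ∈ s, (3 / (p : ℝ)) := by
  classical
  intro s
  induction s using Finset.induction_on with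
  | empty =>
    intro _ d r n h1 h2 h3 h4 _ h6
    rw [prod_empty, mul_one] at h6 ⊢
    rw [prod_empty, mul_one]
    exact hbase d r n h1 h2 h3 h4 h6
  | insert p s hps ih =>
    intro hs d r n hd1 hn1 hdn hr hpd hQ
    have ih' := ih (fun q hq => hs q (mem_insert_of_mem hq))
    obtain ⟨hp, hp5, hpD, x, hx⟩ := hs p (mem_insert_self p s)
    have hpdn := hpd p (mem_insert_self p s)
    have hcd : Nat.Coprime d p := ((Nat.Prime.coprime_iff_not_dvd hp).2 hpdn.1).symm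
    have hcn : Nat.Coprime n p := ((Nat.Prime.coprime_iff_not_dvd hp).2 hpdn.2).symm
    obtain ⟨r₁, h1, h1'⟩ := crt hcd r x
    obtain ⟨r₂, h2, h2'⟩ := crt hcd r (t - x)
    have hx' : (p : ℤ) ∣ (t - x) ^ 2 - t * (t - x) + c := by
      have e : (t - x) ^ 2 - t * (t - x) + c = x ^ 2 - t * x + c := by ring
      rw [e]; exact hx
    have hdpos : (0 : ℝ) < d := by exact_mod_cast hd1
    have hnpos : (0 : ℝ) < n := by exact_mod_cast hn1
    have hppos : (0 : ℝ) < p := by exact_mod_cast hp.pos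
    have hp1 : (1 : ℝ) ≤ p := by exact_mod_cast hp.one_lt.le
    have hprod0 : 0 ≤ ∏ q ∈ s, (q : ℝ) ^ 2 := prod_nonneg (fun q _ => by positivity)
    rw [prod_insert hps] at hQ
    have hne : ∀ q ∈ s, q ≠ p := fun q hq h => hps (h ▸ hq)
    have hq1 : ∀ q ∈ s, ¬ q ∣ d * p := by
      intro q hq h
      have hqp := (hs q (mem_insert_of_mem hq)).1
      rcases hqp.dvd_mul.1 h with h3 | h3
      · exact (hpd q (mem_insert_of_mem hq)).1 h3
      · exact hne q hq ((Nat.prime_dvd_prime_iff_eq hqp hp).1 h3)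
    have hq2 : ∀ q ∈ s, ¬ q ∣ n * p := by
      intro q hq h
      have hqp := (hs q (mem_insert_of_mem hq)).1
      rcases hqp.dvd_mul.1 h with h3 | h3
      · exact (hpd q (mem_insert_of_mem hq)).2 h3
      · exact hne q hq ((Nat.prime_dvd_prime_iff_eq hqp hp).1 h3)
    have hdp1 : 1 ≤ d * p := Nat.mul_pos hd1 hp.pos
    have hnp1 : 1 ≤ n * p := Nat.mul_pos hn1 hp.pos
    have hcop1 : Nat.Coprime (d * p) n := Nat.Coprime.mul_left hdn hcn.symm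
    have hcop2 : Nat.Coprime d (n * p) := Nat.Coprime.mul_right hdn hcd
    have hQ1 : ((d * p : ℕ) : ℝ) * (n : ℝ) ^ 2 * ∏ q ∈ s, (q : ℝ) ^ 2 ≤ Q := by
      refine le_trans ?_ hQ
      push_cast
      have e : (d : ℝ) * p * (n : ℝ) ^ 2 * ∏ q ∈ s, (q : ℝ) ^ 2 =
        (d : ℝ) * (n : ℝ) ^ 2 * (p * ∏ q ∈ s, (q : ℝ) ^ 2) := by ring
      rw [e]
      refine mul_le_mul_of_nonneg_left ?_ (by positivity)
      refine mul_le_mul_of_nonneg_right ?_ hprod0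
      nlinarith
    have hQ2 : (d : ℝ) * ((n * p : ℕ) : ℝ) ^ 2 * ∏ q ∈ s, (q : ℝ) ^ 2 ≤ Q := by
      refine le_trans (le_of_eq ?_) hQ
      push_cast
      ring
    have i1 := ih' (d * p) r₁ n hdp1 hn1 hcop1 (root_mul hcd (root_congr h1 hr) (root_congr h1' hx))
      (fun q hq => ⟨hq1 q hq, (hpd q (mem_insert_of_mem hq)).2⟩) hQ1
    have i2 := ih' (d * p) r₂ n hdp1 hn1 hcop1 (root_mul hcd (root_congr h2 hr) (root_congr h2' hx'))
      (fun q hq => ⟨hq1 q hq, (hpd q (mem_insert_of_mem hq)).2⟩) hQ1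
    have i3 := ih' d r (n * p) hd1 hnp1 hcop2 hr
      (fun q hq => ⟨(hpd q (mem_insert_of_mem hq)).1, hq2 q hq⟩) hQ2
    rw [SS_insert hD F A B s d r n p hp hpD hx hcd hcn h1 h1' h2 h2', prod_insert hps,
      prod_insert hps]
    set P := ∏ q ∈ s, (2 * (q : ℝ) - 1) / (q : ℝ) ^ 2 with hP
    set P3 := ∏ q ∈ s, (3 / (q : ℝ)) with hP3
    have hP30 : 0 ≤ P3 := prod_nonneg (fun q _ => by positivity)
    set a₁ := ∑ z ∈ SS t c A B s (d * p) r₁ n, F z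
    set a₂ := ∑ z ∈ SS t c A B s (d * p) r₂ n, F z
    set a₃ := ∑ z ∈ SS t c A B s d r (n * p), F z
    set q₀ : ℝ := (d : ℝ) * (n : ℝ) ^ 2 with hq₀
    have hq₀pos : 0 < q₀ := by positivity
    have e1 : ((d * p : ℕ) : ℝ) * (n : ℝ) ^ 2 = q₀ * p := by
      rw [hq₀]; push_cast; ring
    have e2 : (d : ℝ) * ((n * p : ℕ) : ℝ) ^ 2 = q₀ * (p : ℝ) ^ 2 := by
      rw [hq₀]; push_cast; ring
    rw [e1] at i1 i2
    rw [e2] at i3
    have e3 : ρ / q₀ * ((2 * (p : ℝ) - 1) / (p : ℝ) ^ 2 * P) =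
        ρ / (q₀ * p) * P + ρ / (q₀ * p) * P - ρ / (q₀ * (p : ℝ) ^ 2) * P := by
      field_simp
      ring
    rw [e3]
    have e4 : a₁ + a₂ - a₃ - (ρ / (q₀ * p) * P + ρ / (q₀ * p) * P - ρ / (q₀ * (p : ℝ) ^ 2) * P) =
        (a₁ - ρ / (q₀ * p) * P) + (a₂ - ρ / (q₀ * p) * P) - (a₃ - ρ / (q₀ * (p : ℝ) ^ 2) * P) := by
      ring
    rw [e4]
    have e5 : Err / (q₀ * p) * P3 + Err / (q₀ * p) * P3 + Err / (q₀ * (p : ℝ) ^ 2) * P3 ≤
        Err / q₀ * (3 / (p : ℝ) * P3) := by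
      have e6 : Err / (q₀ * (p : ℝ) ^ 2) ≤ Err / (q₀ * p) := by
        refine div_le_div_of_nonneg_left hErr (by positivity) ?_
        refine mul_le_mul_of_nonneg_left ?_ hq₀pos.le
        nlinarith
      have e7 := mul_le_mul_of_nonneg_right e6 hP30
      have e8 : Err / q₀ * (3 / (p : ℝ) * P3) = 3 * (Err / (q₀ * p) * P3) := by
        field_simp
      rw [e8]
      linarith
    refine le_trans ?_ e5
    refine (abs_sub _ _).trans (add_le_add ((abs_add_le _ _).trans (add_le_add i1 i2)) i3)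

/-- multiples of `n` in an ideal -/
lemma SS_empty (hD : t ^ 2 < 4 * c) (R : ℕ) (k : ℤ) (φ : ℝ) (A B : ℝ) (d : ℕ) (r : ℤ) (n : ℕ)
    (hn : 1 ≤ n) (hdn : Nat.Coprime d n) :
    ∑ z ∈ SS t c A B ∅ d r n, FF R k φ z =
      (∑ z ∈ (ann t c (A / (n : ℝ) ^ 2) (B / (n : ℝ) ^ 2)).filter (lat d r), FF R k φ z) /
        (n : ℝ) ^ 2 := by
  classical
  rw [sum_div]
  symm
  have hn0 : (0 : ℝ) < n := by exact_mod_cast hn
  have hnn : ((n : ℕ) : Qd t c) ≠ 0 := by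
    intro h
    have h1 := congrArg QuadraticAlgebra.re h
    rw [QuadraticAlgebra.re_natCast, QuadraticAlgebra.re_zero] at h1
    have : n = 0 := by exact_mod_cast h1
    omega
  have hlat : ∀ z : Qd t c, lat d r ((n : Qd t c) * z) ↔ lat d r z := by
    intro z
    unfold lat
    have e : ((n : Qd t c) * z).re + r * ((n : Qd t c) * z).im = n * (z.re + r * z.im) := by
      simp only [QuadraticAlgebra.re_mul, QuadraticAlgebra.im_mul, QuadraticAlgebra.re_natCast,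
        QuadraticAlgebra.im_natCast]
      ring
    rw [e]
    constructor
    · intro h
      exact (isCoprime_cast hdn).dvd_of_dvd_mul_left h
    · intro h
      exact h.mul_left _
  refine Finset.sum_bij (fun z _ => (n : Qd t c) * z) ?_ ?_ ?_ ?_
  · intro z hz
    rw [mem_filter, mem_ann hD] at hz
    obtain ⟨⟨h1, h2, h3⟩, h4⟩ := hz
    unfold SS
    rw [mem_filter, mem_ann hD, nm_mul, nm_natCast]
    refine ⟨⟨Nat.mul_pos (by positivity) h1, ?_, ?_⟩, by simp, (hlat z).2 h4, Dvd.intro _ rfl⟩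
    · push_cast
      rw [div_lt_iff₀ (by positivity)] at h2
      linarith
    · push_cast
      rw [le_div_iff₀ (by positivity)] at h3
      linarith
  · intro z₁ _ z₂ _ h
    have h1 : ∀ z : Qd t c, ((n : Qd t c) * z).re = n * z.re ∧ ((n : Qd t c) * z).im = n * z.im := by
      intro z
      constructor
      · simp only [QuadraticAlgebra.re_mul, QuadraticAlgebra.re_natCast,
          QuadraticAlgebra.im_natCast]
        ring
      · simp only [QuadraticAlgebra.im_mul, QuadraticAlgebra.re_natCast,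
          QuadraticAlgebra.im_natCast]
        ring
    have hnz : (n : ℤ) ≠ 0 := by exact_mod_cast (by omega : n ≠ 0)
    have h2 := congrArg QuadraticAlgebra.re h
    have h3 := congrArg QuadraticAlgebra.im h
    rw [(h1 z₁).1, (h1 z₂).1] at h2
    rw [(h1 z₁).2, (h1 z₂).2] at h3
    exact QuadraticAlgebra.ext (mul_left_cancel₀ hnz h2) (mul_left_cancel₀ hnz h3)
  · intro z hz
    unfold SS at hz
    rw [mem_filter, mem_ann hD] at hz
    obtain ⟨⟨h1, h2, h3⟩, _, h4, u, hu⟩ := hz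
    refine ⟨u, ?_, hu.symm⟩
    rw [hu, nm_mul, nm_natCast] at h1 h2 h3
    rw [hu] at h4
    push_cast at h2 h3
    rw [mem_filter, mem_ann hD]
    refine ⟨⟨Nat.pos_of_ne_zero ?_, ?_, ?_⟩, (hlat u).1 h4⟩
    · intro h
      rw [h] at h1
      omega
    · rw [div_lt_iff₀ (by positivity)]; linarith
    · rw [le_div_iff₀ (by positivity)]; linarith
  · intro z _
    exact (FF_natCast_mul hD R k φ hn z).symm

end Pool.Agent.W194.GA
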